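import Pool.Agent.H56.BD.StmtsT

set_option autoImplicit false

namespace Pool.BD

open Relation

namespace STAp

variable {V : Type}

theorem notq {G : SimpleGraph V} {rk : V → ℕ} {H : Set V} {q a : V}
    (hup : Up G rk H q) (haq : ¬ Re G rk a q) {y z : V} (hay : Re G rk a y) (hyz : Ar G rk y z)
    (hz : z ∉ H) : y ∉ H := by
  intro hy
  by_cases hyq : y = q
  · subst hyq; exact haq hay
  · exact hz (hup y hy hyq z hyz)

theorem cnX {G : SimpleGraph V} {rk : V → ℕ} {H : Set V} {q a h : V}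
    (hup : Up G rk H q) (haq : ¬ Re G rk a q) {y : V} (hay : Re G rk a y) :
    y ∉ H → ¬ Re G rk h y → Cn G {y | y ∉ H ∧ Re G rk a y ∧ ¬ Re G rk h y} a y := by
  induction hay with
  | refl => exact fun h1 h2 => ⟨⟨h1, ReflTransGen.refl, h2⟩, ReflTransGen.refl⟩
  | @tail b c h1 h2 ih =>
    intro h3 h4
    have h5 := ih (notq hup haq h1 h2 h3) (fun h6 => h4 (ReflTransGen.tail h6 h2))
    exact ⟨h5.1, ReflTransGen.tail h5.2 ⟨h2.1, h3, ReflTransGen.tail h1 h2, h4⟩⟩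

theorem cnY {G : SimpleGraph V} {rk : V → ℕ} {H : Set V} {q a : V}
    (hup : Up G rk H q) (haq : ¬ Re G rk a q) {y : V} (hay : Re G rk a y) :
    y ∉ H → Cn G {y | y ∉ H ∧ Re G rk a y} a y := by
  induction hay with
  | refl => exact fun h1 => ⟨⟨h1, ReflTransGen.refl⟩, ReflTransGen.refl⟩
  | @tail b c h1 h2 ih =>
    intro h3
    have h5 := ih (notq hup haq h1 h2 h3)
    exact ⟨h5.1, ReflTransGen.tail h5.2 ⟨h2.1, h3, ReflTransGen.tail h1 h2⟩⟩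

theorem ft {G : SimpleGraph V} {rk : V → ℕ} {H : Set V} {q a : V} {Q : Set V} {c : Ct V}
    (hc : IsCt G H q Q c) {w x : V} (hr : Rg G rk H q a w x) : Ft G H H q Q c (w, x) := by
  obtain ⟨h1, h2, h3, h4, h5⟩ := hr
  refine ⟨h1, ⟨h1, h5.1.symm, fun he => absurd he h2, fun _ he => ?_⟩, fun hh => h3 hh.2⟩
  exact h3 (by rw [show x = c.par w from he]; exact (hc.par w h1 h2).1)

end STAp

open STAp in
theorem sta : STA := by
  intro V G rk H q Q c hc hup hpr a h ha hh haq hhq w x w' x' y z y' z' r1 n1 r2 n2 r3 r4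
  have hX : Cn G {y | y ∉ H ∧ Re G rk a y ∧ ¬ Re G rk h y} x x' :=
    (cnX hup haq r1.2.2.2.1 r1.2.2.1 n1).symm'.trans' (cnX hup haq r2.2.2.2.1 r2.2.2.1 n2)
  have hY : Cn G {y | y ∉ H ∧ Re G rk h y} z z' :=
    (cnY hup hhq r3.2.2.2.1 r3.2.2.1).symm'.trans' (cnY hup hhq r4.2.2.2.1 r4.2.2.1)
  have hXY : Disjoint {y | y ∉ H ∧ Re G rk a y ∧ ¬ Re G rk h y} {y | y ∉ H ∧ Re G rk h y} :=
    Set.disjoint_left.2 fun v hv hv' => hv.2.2 hv'.2
  have hXH : Disjoint {y | y ∉ H ∧ Re G rk a y ∧ ¬ Re G rk h y} H :=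
    Set.disjoint_left.2 fun v hv hv' => hv.1 hv'
  have hYH : Disjoint {y | y ∉ H ∧ Re G rk h y} H :=
    Set.disjoint_left.2 fun v hv hv' => hv.1 hv'
  refine ⟨?_, ?_⟩
  · exact hc.nc H (le_refl _) hc.qH (fun v hv hq => (hc.par v hv hq).1) _ _ hXY (w, x) (w', x')
      (y, z) (y', z') (ft hc r1) (ft hc r2) (ft hc r3) (ft hc r4) (Or.inr ⟨hXH, hX⟩)
      (Or.inr ⟨hYH, hY⟩)
  · exact hc.nc H (le_refl _) hc.qH (fun v hv hq => (hc.par v hv hq).1) _ _ hXY.symm (y, z) (y', z')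
      (w, x) (w', x') (ft hc r3) (ft hc r4) (ft hc r1) (ft hc r2) (Or.inr ⟨hYH, hY⟩)
      (Or.inr ⟨hXH, hX⟩)

end Pool.BD
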