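import Pool.Agent.H56.BD.StmtsT

set_option autoImplicit false

namespace Pool.BD

open Relation

theorem upn : UPN := by
  intro V G rk q0 L R0 hN y u hy hu hyq huy hpar x hx hxy v hxv
  have hL := hN.isL
  have hr := hN.parL
  rcases hx with hx | ⟨hxU, hx1, hx2⟩
  · exact absurd hx hxy
  have hxU' : Re G rk q0 x := hxU
  have hvU : v ∈ {v | Re G rk q0 v} := ReflTransGen.tail hxU' hxv
  have hyU : y ∈ {v | Re G rk q0 v} := hy
  have huU : u ∈ {v | Re G rk q0 v} := hu
  have hvq : v ≠ q0 := by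
    intro he
    have h1 := Re.rank hxU'
    have h2 := hxv.2
    rw [he] at h2
    omega
  have hyb := hL.lh y hyU
  -- the chord (y,u)
  have dyu : Dn G {v | Re G rk q0 v} q0 Set.univ L y u :=
    ⟨hyU, huy.1.symm, fun _ => trivial, fun _ he => hpar he.symm⟩
  have nyu : ¬ Ch {v | Re G rk q0 v} q0 L y u := by
    rintro ⟨h1, h2, h3⟩
    have h4 := hr u h1 h2
    rw [h3] at h4
    have := huy.2
    omega
  have duy : Dn G {v | Re G rk q0 v} q0 Set.univ L u y := by
    refine ⟨huU, huy.1, fun _ => trivial, fun hq he => ?_⟩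
    have h4 := hr u huU hq
    rw [← he] at h4
    have := huy.2
    omega
  have nuy : ¬ Ch {v | Re G rk q0 v} q0 L u y := fun h => hpar h.2.2
  have lyu := hN.left u huU y hyU huy hpar
  have pyu := hL.dn y u dyu
  have puy : L.hi y < L.pos u y := by
    rcases hL.dart_side hr duy nuy hyU (fun ha => by
      have h1 := ha.rank hr
      have h2 := huy.2
      omega) with h1 | h1
    · omega
    · exact h1
  by_cases hvx : L.par v = x
  · have h1 := hL.ch v hvU hvq
    rw [hvx] at h1
    exact Or.inr ⟨hvU, by omega, by omega⟩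
  · have dxv : Dn G {v | Re G rk q0 v} q0 Set.univ L x v := by
      refine ⟨hxU, hxv.1, fun _ => trivial, fun hq he => ?_⟩
      have h4 := hr x hxU hq
      rw [← he] at h4
      have := hxv.2
      omega
    have nxv : ¬ Ch {v | Re G rk q0 v} q0 L x v := fun h => hvx h.2.2
    have dvx : Dn G {v | Re G rk q0 v} q0 Set.univ L v x :=
      ⟨hvU, hxv.1.symm, fun _ => trivial, fun _ he => hvx he.symm⟩
    have nvx : ¬ Ch {v | Re G rk q0 v} q0 L v x := by
      rintro ⟨h1, h2, h3⟩
      have h4 := hr x h1 h2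
      rw [h3] at h4
      have := hxv.2
      omega
    have lxv := hN.left x hxU v hvU hxv hvx
    have pxv := hL.dn x v dxv
    have pvx := hL.dn v x dvx
    have hnc := hL.nc {v | Re G rk q0 v} (le_refl _) hL.qH (fun v hv hq => (hL.par v hv hq).1)
      ∅ ∅ (Set.disjoint_left.2 fun _ h => h.elim) (v, x) (x, v) (y, u) (u, y)
      ⟨hvU, dvx, fun h => nvx h.1⟩ ⟨hxU, dxv, fun h => nxv h.1⟩
      ⟨hyU, dyu, fun h => nyu h.1⟩ ⟨huU, duy, fun h => nuy h.1⟩
      (Or.inl ⟨rfl, hxU, rfl⟩) (Or.inl ⟨rfl, huU, rfl⟩)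
    have h1 : ¬ L.pos v x < L.pos y u := fun h => hnc ⟨h, by show L.pos y u < L.pos x v; omega,
      by show L.pos x v < L.pos u y; omega⟩
    have h2 : L.pos y u ≠ L.pos v x := by
      intro he
      have h3 := hL.pos_inj hr dyu nyu dvx nvx he
      have h4 : L.pos x v = L.pos u y := by rw [h3.1, h3.2]
      omega
    have h3 : L.pos y u < L.pos v x := by omega
    have hanc : Anc {v | Re G rk q0 v} q0 L y v :=
      hL.dart_block hr dvx nvx hyU (by omega) (by omega)
    have hyx : Anc {v | Re G rk q0 v} q0 L y x := (hL.anc_iff hr hyU hxU).2 ⟨by omega, by omega⟩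
    have hyv : y ≠ v := by
      intro he
      have h4 := hyx.rank hr
      have h5 := hxv.2
      rw [← he] at h5
      omega
    obtain ⟨c, hc, hcq, hcp, hcv⟩ := hanc.head hyv
    have dyc := hL.ch_dn hr hc hcq
    rw [hcp] at dyc
    have hch : Ch {v | Re G rk q0 v} q0 L y c := ⟨hc, hcq, hcp⟩
    have hcb := hL.anc_le hcv
    have hcc := hL.ch c hc hcq
    rw [hcp] at hcc
    rcases lt_trichotomy (L.pos y c) (L.pos y u) with h4 | h4 | h4
    · have h5 := (hL.sep _ _ _ dyc dyu h4).1 hch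
      omega
    · exact absurd ((hL.inj _ _ _ dyc dyu h4) ▸ hch) nyu
    · have h5 := (hL.sep _ _ _ dyu dyc h4).2.1 hch
      exact Or.inr ⟨hvU, by omega, by omega⟩

end Pool.BD
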